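import Mathlib
import Pool.Agent.H61.LC.L11

/-!
Local continuity of the connective constant on infinite vertex-transitive graphs: for every graph
`G` and every `ε > 0` there is a radius `r` such that every graph `H` with the same ball of radius
`r` has its connective constant within `ε` of that of `G`.
-/

set_option autoImplicit false
open Filter Topology

namespace Pool.Agent.Results.MP_e1ee2a_pr.BallContinuity

open Pool.Agent.H61.SW Pool.H98.C Pool.H61.ST

/-- `μ` and `m` are the connective constants (limits of `SAW(n) ^ (1/n)`) of the infinite connected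
locally finite vertex-transitive graphs `G` and `H`. -/
theorem result :
  ∀ (V : Type) [Infinite V] (G : SimpleGraph V) (o : V) (μ : ℝ),
    G.Connected → (∀ v, (G.neighborSet v).Finite) → (∀ u v : V, ∃ φ : G ≃g G, φ u = v) →
    Tendsto (fun n : ℕ =>
      ((Set.ncard {p : Σ v : V, G.Walk o v | p.2.IsPath ∧ p.2.length = n} : ℕ) : ℝ)
        ^ ((1 : ℝ) / n)) atTop (𝓝 μ) →
    ∀ ε : ℝ, 0 < ε → ∃ r : ℕ,
      ∀ (W : Type) [Infinite W] (H : SimpleGraph W) (p : W) (m : ℝ),
        H.Connected → (∀ v, (H.neighborSet v).Finite) → (∀ u v : W, ∃ φ : H ≃g H, φ u = v) →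
        Tendsto (fun n : ℕ =>
          ((Set.ncard {q : Σ v : W, H.Walk p v | q.2.IsPath ∧ q.2.length = n} : ℕ) : ℝ)
            ^ ((1 : ℝ) / n)) atTop (𝓝 m) →
        (∃ φ : G.induce {v : V | G.dist o v ≤ r} ≃g H.induce {v : W | H.dist p v ≤ r},
          ∀ x : ↥{v : V | G.dist o v ≤ r}, (x : V) = o →
            ((φ x : ↥{v : W | H.dist p v ≤ r}) : W) = p) →
        |m - μ| < ε := by
  intro V _ G o μ h1 h2 h3 hμ ε hε
  simp only [ncard_walks] at hμ
  obtain ⟨r, hr⟩ := ball_continuity ⟨h1, h2, h3⟩ o hμ ε hε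
  refine ⟨r, fun W _ H p m h4 h5 h6 hm hB => ?_⟩
  simp only [ncard_walks] at hm
  exact hr W H p m ⟨h4, h5, h6⟩ hm hB

end Pool.Agent.Results.MP_e1ee2a_pr.BallContinuity
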